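import Pool.Agent.Q276.OM.Top2

/-!
# MP_5f72fe_nt: there is no positive proportion of non-vanishing quadratic twists in general

The level one Hecke–Maass cusp forms `φ` correspond to the irreducible cuspidal automorphic representations `π'` of `PGL(2)`
over `ℚ` which are unramified at all finite places and of principal series type at infinity. If `φ` is odd, then for every quadratic extension `E` of `ℚ` the root number of
`L(s, φ ⊗ η_E)` is `-1`, therefore `L(1/2, φ ⊗ η_E) = 0` for all `E`.
-/

set_option autoImplicit false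

open Filter Topology Q276.OM

/-- There are odd Hecke–Maass cusp forms of level one. For every such form `φ` and every quadratic extension `E` of `ℚ`
(with quadratic character `η_E`) the function `L(s, φ ⊗ η_E)` is entire, satisfies the functional equation with root
number `-1` and vanishes at `s = 1/2`. So `N_φ(x) = 0` for all `x`, the lower limit of `N_φ(x) / x` is `0`, and there is no
`c > 0` such that `N_φ(x) ≥ c x` for all large `x`. -/
theorem Pool.Agent.Results.MP_5f72fe_nt.OddMaassForms.result :
    (∃ φ : HeckeMaassForm, φ.IsOdd) ∧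
    ∀ φ : HeckeMaassForm, φ.IsOdd →
      (∀ E : QuadExt, ∃ (q : ℕ) (χ : DirichletCharacter ℂ q), IsEta E χ) ∧
      (∀ (E : QuadExt) (q : ℕ) (χ : DirichletCharacter ℂ q), IsEta E χ →
        ∃ L : ℂ → ℂ, IsTwist φ χ L ∧ FunEqMinus φ χ L ∧ L (1 / 2) = 0) ∧
      (∀ E : QuadExt, ¬ CentralNonzero φ E) ∧
      (∀ x : ℝ, countNonzero φ x = 0) ∧
      liminf (fun x : ℝ => (countNonzero φ x : ℝ) / x) atTop = 0 ∧
      ¬ ∃ c : ℝ, 0 < c ∧ ∀ᶠ x : ℝ in atTop, c * x ≤ (countNonzero φ x : ℝ) := by
  refine ⟨exists_odd, fun φ hφ => ⟨exists_eta, twist_eta φ hφ, not_centralNonzero φ hφ, countNonzero_eq φ hφ, ?_, ?_⟩⟩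
  · have : (fun x : ℝ => (countNonzero φ x : ℝ) / x) = fun _ => (0 : ℝ) := by
      funext x
      rw [countNonzero_eq φ hφ x, Nat.cast_zero, zero_div]
    rw [this]
    exact liminf_const 0
  · rintro ⟨c, hc, h⟩
    obtain ⟨x, h1, h2⟩ := (h.and (eventually_gt_atTop (0 : ℝ))).exists
    rw [countNonzero_eq φ hφ x, Nat.cast_zero] at h1
    have := mul_pos hc h2
    linarith
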